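import Pool.Agent.P.MP_2920fb_lc.Defs

/-! The automaton of window size one. The letter `0` is the separator. -/

namespace Pool.Agent.P.MP_2920fb_lc

open Relation

/-- Delete the first letter, or delete the letter after the separator if it equals the first
letter; accept if nothing follows the separator. -/
abbrev aut : RWW (Fin 4) where
  Q := Fin 4 × Fin 4
  finQ := inferInstance
  Γ := Fin 4
  finΓ := inferInstance
  inp := Function.Embedding.refl _
  q0 := (0, 0)
  k := 1
  kpos := le_rfl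
  mvr q u q' := (q = (0, 0) ∧ q' = (1, 0)) ∨
    (∃ c, c ≠ 0 ∧ q = (1, 0) ∧ u = [Cell.sym c] ∧ q' = (2, c)) ∨
    (∃ c a, a ≠ 0 ∧ q = (2, c) ∧ u = [Cell.sym a] ∧ q' = (2, c)) ∨
    ∃ c, q = (2, c) ∧ u = [Cell.sym 0] ∧ q' = (3, c)
  rew q u v := v = [] ∧ ∃ c, c ≠ 0 ∧ u = [Cell.sym c] ∧ (q = (1, 0) ∨ q = (3, c))
  acc q u := q.1 = 3 ∧ u = [Cell.rgt]

theorem win_iff (p : ℕ) (w : List (Fin 4)) (s : Cell (Fin 4)) :
    aut.win p w = [s] ↔ (tape w)[p]? = some s := by
  show ((tape w).drop p).take 1 = [s] ↔ _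
  rw [List.take_one, List.head?_drop]
  cases (tape w)[p]? <;> simp

theorem win_sym (p : ℕ) (w : List (Fin 4)) (c : Fin 4) :
    aut.win (p + 1) w = [Cell.sym c] ↔ w[p]? = some c := by
  rw [win_iff, tape, List.getElem?_cons_succ]
  rcases lt_or_ge p w.length with h | h
  · rw [List.getElem?_append_left (by simpa using h)]
    simp [List.getElem?_eq_getElem h]
  · rw [List.getElem?_append_right (by simpa using h), List.getElem?_eq_none h]
    cases p - (w.map Cell.sym).length <;> simp

theorem win_rgt (p : ℕ) (w : List (Fin 4)) :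
    aut.win (p + 1) w = [Cell.rgt] ↔ p = w.length := by
  rw [win_iff, tape, List.getElem?_cons_succ]
  rcases lt_or_ge p w.length with h | h
  · rw [List.getElem?_append_left (by simpa using h)]
    simp [List.getElem?_eq_getElem h, h.ne]
  · rw [List.getElem?_append_right (by simpa using h), List.length_map]
    obtain ⟨k, rfl⟩ := Nat.exists_eq_add_of_le h
    cases k <;> simp

theorem tape_length {Γ : Type} (w : List Γ) : (tape w).length = w.length + 2 := by simp [tape]

theorem tape_inj {Γ : Type} {w w' : List Γ} (h : tape w = tape w') : w = w' := by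
  simp only [tape, List.cons.injEq, true_and, List.append_cancel_right_eq] at h
  exact List.map_injective_iff.2 (fun _ _ h => Cell.sym.inj h) h

theorem tape_del {Γ : Type} (a b : List Γ) (c : Γ) {w : List Γ} {p : ℕ} (hw : w = a ++ c :: b)
    (hp : p = a.length + 1) :
    (tape w).take p ++ [] ++ (tape w).drop (p + 1) = tape (a ++ b) := by
  subst hw hp
  have e : (a ++ c :: b).map Cell.sym ++ [Cell.rgt] =
      a.map Cell.sym ++ Cell.sym c :: (b.map Cell.sym ++ [Cell.rgt]) := by simp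
  have hl : a.length = (a.map Cell.sym).length := by simp
  rw [tape, e, List.take_succ_cons, List.drop_succ_cons, hl, List.take_left,
    List.drop_length_add_append]
  simp [tape]

/-- `y` lies in `c₁^* ⋯ cₙ^*` for `x = c₁ ⋯ cₙ`. -/
inductive Stut : List (Fin 4) → List (Fin 4) → Prop
  | nil (x : List (Fin 4)) : Stut x []
  | rep {c : Fin 4} {x y : List (Fin 4)} : Stut (c :: x) y → Stut (c :: x) (c :: y)
  | skip {c : Fin 4} {x y : List (Fin 4)} : Stut x y → Stut (c :: x) y

theorem Stut.sublist {x y : List (Fin 4)} (h : Stut x y) (hy : y.IsChain (· ≠ ·)) :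
    y.Sublist x := by
  induction h with
  | nil x => exact List.nil_sublist x
  | @rep c x y _ ih =>
    rcases List.sublist_cons_iff.1 (ih hy.tail) with h | ⟨r, rfl, -⟩
    · exact h.cons_cons c
    · exact absurd rfl (List.isChain_cons_cons.1 hy).1
  | skip _ ih => exact (ih hy).cons _

/-- Configurations that occur in a cycle on a word with left part `x`. -/
def Cons (x : List (Fin 4)) (q : Fin 4 × Fin 4) (p : ℕ) : Prop :=
  (q = (0, 0) ∧ p = 0) ∨ (q = (1, 0) ∧ p = 1) ∨ ∃ c x', x = c :: x' ∧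
    ((q = (2, c) ∧ 2 ≤ p ∧ p ≤ x.length + 1) ∨ (q = (3, c) ∧ p = x.length + 2))

theorem sound {c cf : aut.Q × ℕ × List aut.Γ} (h : ReflTransGen aut.Step c cf)
    (hf : aut.acc cf.1 (aut.win cf.2.1 cf.2.2)) :
    ∀ x y : List (Fin 4), 0 ∉ x → c.2.2 = x ++ 0 :: y → Cons x c.1 c.2.1 → Stut x y := by
  have first : ∀ (x y : List (Fin 4)) (a : Fin 4), a ≠ 0 → (x ++ 0 :: y)[0]? = some a →
      ∃ x', x = a :: x' := fun x y a ha h => by
    cases x with
    | nil => exact absurd (by simpa using h.symm) ha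
    | cons b x' => exact ⟨x', by simpa using h⟩
  induction h using ReflTransGen.head_induction_on with
  | refl =>
    obtain ⟨q, p, w⟩ := cf
    rintro x y - rfl hc
    obtain ⟨h1, h2⟩ := hf
    simp only at h1 h2 hc
    rcases hc with ⟨rfl, -⟩ | ⟨rfl, -⟩ | ⟨c, x', -, ⟨rfl, -⟩ | ⟨-, rfl⟩⟩
    · exact absurd h1 (by decide)
    · exact absurd h1 (by decide)
    · exact absurd h1 (show (2 : Fin 4) ≠ 3 by decide)
    · have := (win_rgt _ _).1 h2
      simp only [List.length_append, List.length_cons] at this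
      rw [List.length_eq_zero_iff.1 (by omega : y.length = 0)]
      exact .nil x
  | @head c c' hs _ ih =>
    obtain ⟨q, p, w⟩ := c
    obtain ⟨q', p', w'⟩ := c'
    rintro x y hx rfl hc
    simp only at hc ih
    rcases hs with ⟨hm, -, he⟩ | ⟨v, ⟨rfl, a, ha, hw, hq⟩, -, rfl, rfl, ht⟩
    · obtain ⟨rfl, rfl⟩ := Prod.mk.inj he
      refine ih x y hx rfl ?_
      rcases hm with ⟨rfl, rfl⟩ | ⟨a, ha, rfl, hw, rfl⟩ | ⟨b, a, ha, rfl, hw, rfl⟩ | ⟨b, rfl, hw, rfl⟩
      · rcases hc with ⟨-, rfl⟩ | ⟨h, -⟩ | ⟨c, x', -, ⟨h, -⟩ | ⟨h, -⟩⟩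
        · exact Or.inr (Or.inl ⟨rfl, rfl⟩)
        all_goals exact absurd (congrArg Prod.fst h) (by simp only; decide)
      · rcases hc with ⟨h, -⟩ | ⟨-, rfl⟩ | ⟨c, x', -, ⟨h, -⟩ | ⟨h, -⟩⟩
        pick_goal 2
        · obtain ⟨x', rfl⟩ := first x y a ha ((win_sym 0 _ a).1 hw)
          exact Or.inr (Or.inr ⟨a, x', rfl, Or.inl ⟨rfl, le_rfl, by simp⟩⟩)
        all_goals exact absurd (congrArg Prod.fst h) (by simp only; decide)
      · rcases hc with ⟨h, -⟩ | ⟨h, -⟩ | ⟨c, x', hx', ⟨h, h1, h2⟩ | ⟨h, -⟩⟩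
        pick_goal 3
        · obtain ⟨p, rfl⟩ : ∃ k, p = k + 1 := ⟨p - 1, by omega⟩
          have h3 := (win_sym p _ a).1 hw
          have h4 : p ≠ x.length := by
            rintro rfl
            exact ha (by simpa using h3.symm)
          exact Or.inr (Or.inr ⟨c, x', hx', Or.inl ⟨h, by simp only at h1 ⊢; omega,
            by simp only at h2 ⊢; omega⟩⟩)
        all_goals exact absurd (congrArg Prod.fst h) (by simp only; decide)
      · rcases hc with ⟨h, -⟩ | ⟨h, -⟩ | ⟨c, x', hx', ⟨h, h1, h2⟩ | ⟨h, -⟩⟩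
        pick_goal 3
        · obtain ⟨p, rfl⟩ : ∃ k, p = k + 1 := ⟨p - 1, by omega⟩
          have h3 := (win_sym p _ 0).1 hw
          have h4 : p = x.length := by
            by_contra hn
            rw [List.getElem?_append_left (by omega)] at h3
            exact hx (List.mem_of_getElem? h3)
          obtain ⟨-, rfl⟩ := Prod.mk.inj h
          exact Or.inr (Or.inr ⟨b, x', hx', Or.inr ⟨rfl, by simp only; omega⟩⟩)
        all_goals exact absurd (congrArg Prod.fst h) (by simp only; decide)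
    · simp only at hw hq ht
      rcases hq with rfl | rfl
      · rcases hc with ⟨h, -⟩ | ⟨-, rfl⟩ | ⟨c, x', -, ⟨h, -⟩ | ⟨h, -⟩⟩
        pick_goal 2
        · obtain ⟨x', rfl⟩ := first x y a ha ((win_sym 0 _ a).1 hw)
          exact (ih x' y (fun h => hx (List.mem_cons_of_mem _ h))
            (tape_inj (ht.trans (tape_del [] (x' ++ 0 :: y) a rfl rfl))) (Or.inl ⟨rfl, rfl⟩)).skip
        all_goals exact absurd (congrArg Prod.fst h) (by simp only; decide)
      · rcases hc with ⟨h, -⟩ | ⟨h, -⟩ | ⟨c, x', hx', ⟨h, -⟩ | ⟨h, rfl⟩⟩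
        pick_goal 4
        · obtain ⟨-, rfl⟩ := Prod.mk.inj h
          have h3 := (win_sym (x.length + 1) _ a).1 hw
          rw [List.getElem?_append_right (by omega), Nat.add_sub_cancel_left,
            List.getElem?_cons_succ] at h3
          obtain ⟨y', rfl⟩ : ∃ y', y = a :: y' := by
            cases y with
            | nil => simp at h3
            | cons b y' => exact ⟨y', by simpa using h3⟩
          have h4 := tape_inj (ht.trans (tape_del (x ++ [0]) y' a (by simp) (by simp)))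
          have := ih x y' hx (by simpa using h4) (Or.inl ⟨rfl, rfl⟩)
          subst hx'
          exact this.rep
        all_goals exact absurd (congrArg Prod.fst h) (by simp only; decide)

theorem mem_aut {w : List (Fin 4)} : w ∈ aut.language ↔
    ∃ c, ReflTransGen aut.Step (((0, 0) : Fin 4 × Fin 4), 0, w) c ∧
      aut.acc c.1 (aut.win c.2.1 c.2.2) := by
  have e : w.map aut.inp = w := List.map_id w
  simp only [RWW.language, Set.mem_ofPred_eq, e]

theorem reach_first (w : List (Fin 4)) :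
    aut.Step (((0, 0) : Fin 4 × Fin 4), 0, w) (((1, 0) : Fin 4 × Fin 4), 1, w) :=
  Or.inl ⟨Or.inl ⟨rfl, rfl⟩, by rw [tape_length]; simp, rfl⟩

theorem reach_chk {c : Fin 4} {x : List (Fin 4)} (h : 0 ∉ c :: x) (y : List (Fin 4)) :
    ReflTransGen aut.Step (((0, 0) : Fin 4 × Fin 4), 0, c :: x ++ 0 :: y)
      (((3, c) : Fin 4 × Fin 4), x.length + 3, c :: x ++ 0 :: y) := by
  have hl : (tape (c :: x ++ 0 :: y)).length = x.length + y.length + 4 := by
    rw [tape_length]
    simp only [List.length_append, List.length_cons]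
    omega
  have key : ∀ i ≤ x.length, ReflTransGen aut.Step (((0, 0) : Fin 4 × Fin 4), 0, c :: x ++ 0 :: y)
      (((2, c) : Fin 4 × Fin 4), i + 2, c :: x ++ 0 :: y) := by
    intro i hi
    induction i with
    | zero =>
      refine (ReflTransGen.single (reach_first _)).tail (Or.inl ⟨Or.inr (Or.inl ⟨c, ?_, rfl,
        (win_sym 0 _ c).2 rfl, rfl⟩), hl ▸ (by simp only; omega), rfl⟩)
      rintro rfl
      exact h List.mem_cons_self
    | succ i ih =>
      refine (ih (by omega)).tail (Or.inl ⟨Or.inr (Or.inr (Or.inl ⟨c, x[i], ?_, rfl,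
        (win_sym (i + 1) _ _).2 ?_, rfl⟩)), hl ▸ (by simp only; omega), rfl⟩)
      · intro h0
        exact h (List.mem_cons_of_mem _ (h0 ▸ List.getElem_mem _))
      · rw [List.cons_append, List.getElem?_cons_succ, List.getElem?_append_left (by omega),
          List.getElem?_eq_getElem]
  refine (key _ le_rfl).tail (Or.inl ⟨Or.inr (Or.inr (Or.inr ⟨c, rfl,
    (win_sym (x.length + 1) _ _).2 (by simp), rfl⟩)), hl ▸ (by simp only; omega), rfl⟩)

theorem step_del {q : Fin 4 × Fin 4} {c : Fin 4} (hc : c ≠ 0) (hq : q = (1, 0) ∨ q = (3, c))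
    (a b : List (Fin 4)) :
    aut.Step (q, a.length + 1, a ++ c :: b) (((0, 0) : Fin 4 × Fin 4), 0, a ++ b) := by
  have hw : aut.win (a.length + 1) (a ++ c :: b) = [Cell.sym c] := (win_sym _ _ _).2 (by simp)
  refine Or.inr ⟨[], ⟨rfl, c, hc, hw, hq⟩, ?_, rfl, rfl, (tape_del a b c rfl rfl).symm⟩
  simp only [hw]
  simp

theorem right_mem {c : Fin 4} {x y : List (Fin 4)} (h : 0 ∉ c :: x)
    (hy : c :: x ++ 0 :: y ∈ aut.language) : c :: x ++ 0 :: c :: y ∈ aut.language := by
  obtain ⟨cf, h1, h2⟩ := mem_aut.1 hy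
  have := step_del (c := c) (fun h0 => h (h0 ▸ List.mem_cons_self)) (Or.inr rfl) (c :: x ++ [0]) y
  have e : (c :: x ++ [0] : List (Fin 4)).length + 1 = x.length + 3 := by simp
  rw [e] at this
  simp only [List.append_assoc, List.singleton_append] at this
  exact mem_aut.2 ⟨cf, (reach_chk h _).trans (h1.head this), h2⟩

theorem copy_mem {c : Fin 4} {x : List (Fin 4)} (h : 0 ∉ c :: x) :
    c :: x ++ 0 :: c :: x ∈ aut.language := by
  induction x generalizing c with
  | nil => exact right_mem h (mem_aut.2 ⟨_, reach_chk h [], rfl, (win_rgt _ _).2 rfl⟩)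
  | cons b x ih =>
    obtain ⟨cf, h1, h2⟩ := mem_aut.1 (ih fun h0 => h (List.mem_cons_of_mem _ h0))
    exact right_mem h (mem_aut.2 ⟨cf, (h1.head (step_del (c := c)
      (fun h0 => h (h0 ▸ List.mem_cons_self)) (Or.inl rfl) [] _)).head (reach_first _), h2⟩)

theorem eq_of_mem {x y : List (Fin 4)} (hx : 0 ∉ x) (hy : y.IsChain (· ≠ ·))
    (hl : y.length = x.length) (h : x ++ 0 :: y ∈ aut.language) : y = x := by
  obtain ⟨cf, h1, h2⟩ := mem_aut.1 h
  exact ((sound h1 h2 x y hx rfl (Or.inl ⟨rfl, rfl⟩)).sublist hy).eq_of_length hl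

end Pool.Agent.P.MP_2920fb_lc
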