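import Pool.Agent.P.MP_2920fb_lc.Defs

/-! Cutting a derivation along two paths, and gluing the parts of two derivations. -/

namespace Pool.Agent.P.MP_2920fb_lc

open Relation

variable {X : Type} {P : Set (List X × List X)}

/-- A production that lies across the left (`false`) or right (`true`) cut. -/
abbrev Ev (X : Type) : Type := Bool × (List X × List X) × ℕ × ℕ

/-- The part of a derivation between the two cuts. -/
inductive Mid (P : Set (List X × List X)) : List (Ev X) → List X → List X → Prop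
  | done (M : List X) : Mid P [] M M
  | step {J : List (Ev X)} {M M' N : List X} : Rew P M M' → Mid P J M' N → Mid P J M N
  | left {J : List (Ev X)} {M N α β : List X} {i j : ℕ} : Mid P J (β.drop j ++ M) N →
      Mid P ((false, (α, β), i, j) :: J) (α.drop i ++ M) N
  | right {J : List (Ev X)} {M N α β : List X} {i j : ℕ} : Mid P J (M ++ β.take j) N →
      Mid P ((true, (α, β), i, j) :: J) (M ++ α.take i) N

/-- The part of a derivation outside the two cuts. -/
inductive Out (P : Set (List X × List X)) : List (Ev X) → List X → List X → List X → List X → Prop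
  | done (A B : List X) : Out P [] A B A B
  | stepA {J : List (Ev X)} {A A' B U W : List X} : Rew P A A' → Out P J A' B U W → Out P J A B U W
  | stepB {J : List (Ev X)} {A B B' U W : List X} : Rew P B B' → Out P J A B' U W → Out P J A B U W
  | left {J : List (Ev X)} {A B U W α β : List X} {i j : ℕ} : (α, β) ∈ P →
      Out P J (A ++ β.take j) B U W → Out P ((false, (α, β), i, j) :: J) (A ++ α.take i) B U W
  | right {J : List (Ev X)} {A B U W α β : List X} {i j : ℕ} : (α, β) ∈ P →
      Out P J A (β.drop j ++ B) U W → Out P ((true, (α, β), i, j) :: J) A (α.drop i ++ B) U W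

theorem Rew.ctx {s t : List X} (h : Rew P s t) (a b : List X) : Rew P (a ++ s ++ b) (a ++ t ++ b) := by
  obtain ⟨x, y, α, β, hr, rfl, rfl⟩ := h
  exact ⟨a ++ x, y ++ b, α, β, hr, by simp, by simp⟩

theorem ders_ctx {s t : List X} (h : ReflTransGen (Rew P) s t) (a b : List X) :
    ReflTransGen (Rew P) (a ++ s ++ b) (a ++ t ++ b) := by
  induction h with
  | refl => exact .refl
  | tail _ hs ih => exact ih.tail (hs.ctx a b)

theorem Mid.inv {J : List (Ev X)} {M N : List X} (h : Mid P J M N) :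
    (J = [] → ReflTransGen (Rew P) M N) ∧
    (∀ α β i j J', J = (false, (α, β), i, j) :: J' →
      ∃ M0, ReflTransGen (Rew P) M (α.drop i ++ M0) ∧ Mid P J' (β.drop j ++ M0) N) ∧
    ∀ α β i j J', J = (true, (α, β), i, j) :: J' →
      ∃ M0, ReflTransGen (Rew P) M (M0 ++ α.take i) ∧ Mid P J' (M0 ++ β.take j) N := by
  induction h with
  | done M => exact ⟨fun _ => .refl, fun _ _ _ _ _ h => by simp at h, fun _ _ _ _ _ h => by simp at h⟩
  | step hs _ ih =>
    refine ⟨fun h => (ih.1 h).head hs, fun α β i j J' h => ?_, fun α β i j J' h => ?_⟩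
    · obtain ⟨M0, h1, h2⟩ := ih.2.1 α β i j J' h
      exact ⟨M0, h1.head hs, h2⟩
    · obtain ⟨M0, h1, h2⟩ := ih.2.2 α β i j J' h
      exact ⟨M0, h1.head hs, h2⟩
  | left hm _ =>
    refine ⟨fun h => by simp at h, fun α β i j J' h => ?_, fun _ _ _ _ _ h => by simp at h⟩
    simp only [List.cons.injEq, Prod.mk.injEq, true_and] at h
    obtain ⟨⟨⟨rfl, rfl⟩, rfl, rfl⟩, rfl⟩ := h
    exact ⟨_, .refl, hm⟩
  | right hm _ =>
    refine ⟨fun h => by simp at h, fun _ _ _ _ _ h => by simp at h, fun α β i j J' h => ?_⟩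
    simp only [List.cons.injEq, Prod.mk.injEq, true_and] at h
    obtain ⟨⟨⟨rfl, rfl⟩, rfl, rfl⟩, rfl⟩ := h
    exact ⟨_, .refl, hm⟩

theorem glue {J : List (Ev X)} {A B U W : List X} (h : Out P J A B U W) :
    ∀ {M N : List X}, Mid P J M N → ReflTransGen (Rew P) (A ++ M ++ B) (U ++ N ++ W) := by
  induction h with
  | done A B => exact fun hm => ders_ctx (hm.inv.1 rfl) A B
  | @stepA J A A' B U W hs _ ih =>
    intro M N hm
    refine (ih hm).head ?_
    simpa using hs.ctx [] (M ++ B)
  | @stepB J A B B' U W hs _ ih =>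
    intro M N hm
    refine (ih hm).head ?_
    simpa using hs.ctx (A ++ M) []
  | @left J A B U W α β i j hr _ ih =>
    intro M N hm
    obtain ⟨M0, h1, h2⟩ := hm.inv.2.1 α β i j J rfl
    refine (ders_ctx h1 _ _).trans ((ih h2).head ⟨A, M0 ++ B, α, β, hr, ?_, ?_⟩)
    · conv_rhs => rw [← List.take_append_drop i α]
      simp only [List.append_assoc]
    · conv_rhs => rw [← List.take_append_drop j β]
      simp only [List.append_assoc]
  | @right J A B U W α β i j hr _ ih =>
    intro M N hm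
    obtain ⟨M0, h1, h2⟩ := hm.inv.2.2 α β i j J rfl
    refine (ders_ctx h1 _ _).trans ((ih h2).head ⟨A ++ M0, B, α, β, hr, ?_, ?_⟩)
    · conv_rhs => rw [← List.take_append_drop i α]
      simp only [List.append_assoc]
    · conv_rhs => rw [← List.take_append_drop j β]
      simp only [List.append_assoc]

theorem tkL (x s y : List X) {p : ℕ} (h : p ≤ x.length) : (x ++ s ++ y).take p = x.take p := by
  rw [List.append_assoc, List.take_append_of_le_length h]

theorem drL (x s y : List X) {p : ℕ} (h : p ≤ x.length) :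
    (x ++ s ++ y).drop p = x.drop p ++ s ++ y := by
  rw [List.append_assoc, List.drop_append_of_le_length h, List.append_assoc]

theorem tkI (x s y : List X) {i : ℕ} (h : i ≤ s.length) :
    (x ++ s ++ y).take (x.length + i) = x ++ s.take i := by
  rw [List.append_assoc, List.take_length_add_append, List.take_append_of_le_length h]

theorem drI (x s y : List X) {i : ℕ} (h : i ≤ s.length) :
    (x ++ s ++ y).drop (x.length + i) = s.drop i ++ y := by
  rw [List.append_assoc, List.drop_length_add_append, List.drop_append_of_le_length h]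

theorem tkR (x s y : List X) (i : ℕ) :
    (x ++ s ++ y).take (x.length + s.length + i) = x ++ s ++ y.take i := by
  rw [← List.length_append, List.take_length_add_append]

theorem drR (x s y : List X) (i : ℕ) :
    (x ++ s ++ y).drop (x.length + s.length + i) = y.drop i := by
  rw [← List.length_append, List.drop_length_add_append]

/-- An event with a production of `P` and small split points. -/
def Good (P : Set (List X × List X)) (c : ℕ) (e : Ev X) : Prop :=
  e.2.1 ∈ P ∧ e.2.2.1 ≤ c ∧ e.2.2.2 ≤ c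

/-- The cuts of `γ` land at `μ` in `z` and meet at most `d` productions. -/
def Cut (P : Set (List X × List X)) (c : ℕ) (γ z : List X) (μ d : ℕ → ℕ) : Prop :=
  ∀ p q, p < q → μ p < μ q → ∃ J, J.length ≤ d p + d q ∧ (∀ e ∈ J, Good P c e) ∧
    Out P J (γ.take p) (γ.drop q) (z.take (μ p)) (z.drop (μ q)) ∧
    Mid P J ((γ.take q).drop p) ((z.take (μ q)).drop (μ p))

theorem cut_step {c : ℕ} {x y α β z : List X} {μ d f d' : ℕ → ℕ} {j : ℕ} (hr : (α, β) ∈ P)
    (hα : α.length ≤ c) (hβ : β.length ≤ c) (hj0 : 0 < j) (hj : j ≤ β.length)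
    (fL : ∀ p, p ≤ x.length → f p = p ∧ d' p = d p)
    (fI : ∀ i, 0 < i → i ≤ α.length →
      f (x.length + i) = x.length + j ∧ d' (x.length + i) = d (x.length + j) + 1)
    (fR : ∀ i, 0 < i → f (x.length + α.length + i) = x.length + β.length + i ∧
      d' (x.length + α.length + i) = d (x.length + β.length + i))
    (h : Cut P c (x ++ β ++ y) z μ d) : Cut P c (x ++ α ++ y) z (fun p => μ (f p)) d' := by
  have zone : ∀ p, p ≤ x.length ∨ (∃ i, 0 < i ∧ i ≤ α.length ∧ p = x.length + i) ∨
      ∃ i, 0 < i ∧ p = x.length + α.length + i := fun p => by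
    by_cases h1 : p ≤ x.length
    · exact Or.inl h1
    by_cases h2 : p ≤ x.length + α.length
    · exact Or.inr (Or.inl ⟨p - x.length, by omega, by omega, by omega⟩)
    · exact Or.inr (Or.inr ⟨p - x.length - α.length, by omega, by omega⟩)
  have hs : ∀ a b, Rew P (a ++ α ++ b) (a ++ β ++ b) := fun a b => ⟨a, b, α, β, hr, rfl, rfl⟩
  intro p q hpq hμ
  simp only at hμ ⊢
  rcases zone p with hp | ⟨i, hi0, hi, rfl⟩ | ⟨i, hi0, rfl⟩
  · rw [(fL p hp).1] at hμ ⊢
    rw [(fL p hp).2]
    rcases zone q with hq | ⟨k, hk0, hk, rfl⟩ | ⟨k, hk0, rfl⟩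
    · rw [(fL q hq).1] at hμ ⊢
      rw [(fL q hq).2]
      obtain ⟨J, h1, h2, h3, h4⟩ := h p q hpq hμ
      rw [tkL _ _ _ hp, drL _ _ _ hq] at h3 ⊢
      rw [tkL _ _ _ hq] at h4 ⊢
      exact ⟨J, h1, h2, h3.stepB (hs _ _), h4⟩
    · rw [(fI k hk0 hk).1] at hμ ⊢
      rw [(fI k hk0 hk).2]
      obtain ⟨J, h1, h2, h3, h4⟩ := h p _ (by omega) hμ
      rw [tkL _ _ _ hp, drI _ _ _ hj] at h3
      rw [tkI _ _ _ hj, List.drop_append_of_le_length hp] at h4
      rw [tkL _ _ _ hp, drI _ _ _ hk, tkI _ _ _ hk, List.drop_append_of_le_length hp]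
      refine ⟨(true, (α, β), k, j) :: J, by simp; omega, ?_, h3.right hr, h4.right⟩
      exact List.forall_mem_cons.2 ⟨⟨hr, hk.trans hα, hj.trans hβ⟩, h2⟩
    · rw [(fR k hk0).1] at hμ ⊢
      rw [(fR k hk0).2]
      obtain ⟨J, h1, h2, h3, h4⟩ := h p _ (by omega) hμ
      rw [tkL _ _ _ hp, drR] at h3 ⊢
      rw [tkR, drL _ _ _ hp] at h4 ⊢
      exact ⟨J, h1, h2, h3, h4.step (hs _ _)⟩
  · rw [(fI i hi0 hi).1] at hμ ⊢
    rw [(fI i hi0 hi).2]
    rcases zone q with hq | ⟨k, hk0, hk, rfl⟩ | ⟨k, hk0, rfl⟩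
    · omega
    · rw [(fI k hk0 hk).1] at hμ
      omega
    · rw [(fR k hk0).1] at hμ ⊢
      rw [(fR k hk0).2]
      obtain ⟨J, h1, h2, h3, h4⟩ := h _ _ (by omega) hμ
      rw [tkI _ _ _ hj, drR] at h3
      rw [tkR, drI _ _ _ hj] at h4
      rw [tkI _ _ _ hi, drR, tkR, drI _ _ _ hi]
      refine ⟨(false, (α, β), i, j) :: J, by simp; omega, ?_, h3.left hr, h4.left⟩
      exact List.forall_mem_cons.2 ⟨⟨hr, hi.trans hα, hj.trans hβ⟩, h2⟩
  · rw [(fR i hi0).1] at hμ ⊢
    rw [(fR i hi0).2]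
    rcases zone q with hq | ⟨k, hk0, hk, rfl⟩ | ⟨k, hk0, rfl⟩
    · omega
    · omega
    · rw [(fR k hk0).1] at hμ ⊢
      rw [(fR k hk0).2]
      obtain ⟨J, h1, h2, h3, h4⟩ := h _ _ (by omega) hμ
      rw [tkR, drR] at h3 ⊢
      rw [tkR, drR] at h4 ⊢
      exact ⟨J, h1, h2, h3.stepA (hs _ _), h4⟩

end Pool.Agent.P.MP_2920fb_lc
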