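import Mathlib

namespace Pool.Agent.P.MP_2920fb_lc

/-- One derivation step with the productions `P`. -/
def Rew {X : Type} (P : Set (List X × List X)) (s t : List X) : Prop :=
  ∃ x y α β, (α, β) ∈ P ∧ s = x ++ α ++ y ∧ t = x ++ β ++ y

/-- A phrase-structure grammar with terminal alphabet `T`: finitely many nonterminals, a start
symbol, finitely many productions with nonempty left side. -/
structure Grammar (T : Type) where
  N : Type
  finN : Finite N
  S : N
  rules : Set (List (T ⊕ N) × List (T ⊕ N))
  finRules : rules.Finite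
  lhs : ∀ r ∈ rules, r.1 ≠ []

/-- The grammar is growing context-sensitive. -/
def Grammar.Growing {T : Type} (G : Grammar T) : Prop :=
  ∀ r ∈ G.rules, Sum.inr G.S ∉ r.2 ∧ (r.1 ≠ [Sum.inr G.S] → r.1.length < r.2.length)

/-- The terminal words derivable from the start symbol. -/
def Grammar.language {T : Type} (G : Grammar T) : Set (List T) :=
  {w | Relation.ReflTransGen (Rew G.rules) [Sum.inr G.S] (w.map Sum.inl)}

/-- Tape cells: the left marker, the right marker, or a tape symbol. -/
inductive Cell (Γ : Type) where
  | lft : Cell Γ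
  | rgt : Cell Γ
  | sym : Γ → Cell Γ

/-- The tape holding the word `w` between the two markers. -/
def tape {Γ : Type} (w : List Γ) : List (Cell Γ) := Cell.lft :: (w.map Cell.sym ++ [Cell.rgt])

/-- An RWW-automaton with input alphabet `T`: the allowed move-right, rewrite and accept steps
depend on the state and the window contents. -/
structure RWW (T : Type) where
  Q : Type
  finQ : Finite Q
  Γ : Type
  finΓ : Finite Γ
  inp : T ↪ Γ
  q0 : Q
  k : ℕ
  kpos : 1 ≤ k
  mvr : Q → List (Cell Γ) → Q → Prop
  rew : Q → List (Cell Γ) → List (Cell Γ) → Prop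
  acc : Q → List (Cell Γ) → Prop

/-- The contents of the window whose left end is at cell `p` of the tape holding `w`. -/
def RWW.win {T : Type} (M : RWW T) (p : ℕ) (w : List M.Γ) : List (Cell M.Γ) :=
  ((tape w).drop p).take M.k

/-- One step between configurations (state, window position, tape word): move right, or replace
the window contents by a shorter string, keeping the markers, and restart. -/
def RWW.Step {T : Type} (M : RWW T) (c c' : M.Q × ℕ × List M.Γ) : Prop :=
  (M.mvr c.1 (M.win c.2.1 c.2.2) c'.1 ∧ c.2.1 + 1 < (tape c.2.2).length ∧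
    c'.2 = (c.2.1 + 1, c.2.2)) ∨
  ∃ v, M.rew c.1 (M.win c.2.1 c.2.2) v ∧ v.length < (M.win c.2.1 c.2.2).length ∧
    c'.1 = M.q0 ∧ c'.2.1 = 0 ∧
    tape c'.2.2 = (tape c.2.2).take c.2.1 ++ v ++ (tape c.2.2).drop (c.2.1 + M.k)

/-- The input words on which some computation reaches an accept step. -/
def RWW.language {T : Type} (M : RWW T) : Set (List T) :=
  {w | ∃ c, Relation.ReflTransGen M.Step (M.q0, 0, w.map M.inp) c ∧
    M.acc c.1 (M.win c.2.1 c.2.2)}

end Pool.Agent.P.MP_2920fb_lc
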