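import Pool.Agent.P.MP_2920fb_lc.Swap
import Pool.Agent.P.MP_2920fb_lc.Aut

/-! The language of the automaton is not growing context-sensitive. -/

namespace Pool.Agent.P.MP_2920fb_lc

open Relation

/-- The letter at place `i`: `1` at even places, `2` or `3` at odd places. -/
def ltr (g : ℕ → Bool) (i : ℕ) : Fin 4 := if i % 2 = 0 then 1 else if g i then 2 else 3

/-- The first `n` letters. -/
def enc (g : ℕ → Bool) (n : ℕ) : List (Fin 4) := (List.range n).map (ltr g)

/-- Two blocks around the separator. -/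
def W (g h : ℕ → Bool) (n : ℕ) : List (Fin 4) := enc g n ++ 0 :: enc h n

theorem enc_length (g : ℕ → Bool) (n : ℕ) : (enc g n).length = n := by simp [enc]

theorem W_length (g h : ℕ → Bool) (n : ℕ) : (W g h n).length = 2 * n + 1 := by
  simp [W, enc_length]
  omega

theorem zero_not_mem_enc (g : ℕ → Bool) (n : ℕ) : 0 ∉ enc g n := by
  intro h
  obtain ⟨i, -, hi⟩ := List.mem_map.1 h
  unfold ltr at hi
  split_ifs at hi <;> exact absurd hi (by decide)

theorem enc_get (g : ℕ → Bool) (n q : ℕ) :
    (enc g n)[q]? = if q < n then some (ltr g q) else none := by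
  split_ifs with h
  · simp [enc, h]
  · rw [List.getElem?_eq_none (by rw [enc_length]; omega)]

theorem enc_chain (g : ℕ → Bool) (n : ℕ) : (enc g n).IsChain (· ≠ ·) := by
  rw [List.isChain_iff_getElem]
  intro i hi
  simp only [enc, List.getElem_map, List.getElem_range, ltr]
  split_ifs <;> first | decide | omega

theorem W_get (g h : ℕ → Bool) (n q : ℕ) : (W g h n)[q]? = if q < n then some (ltr g q) else
    if q = n then some 0 else if q - (n + 1) < n then some (ltr h (q - (n + 1))) else none := by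
  unfold W
  by_cases h1 : q < n
  · rw [List.getElem?_append_left (by rwa [enc_length]), enc_get, if_pos h1, if_pos h1]
  · rw [List.getElem?_append_right (by rw [enc_length]; omega), enc_length, if_neg h1]
    by_cases h2 : q = n
    · simp [h2]
    · rw [if_neg h2, show q - n = q - (n + 1) + 1 by omega, List.getElem?_cons_succ, enc_get]

theorem W_mix (I : ℕ → Prop) [DecidablePred I] (g g' : ℕ → Bool) (n q : ℕ) :
    (W (fun i => if I i then g' i else g i) (fun i => if I (n + 1 + i) then g' i else g i) n)[q]? =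
      if I q then (W g' g' n)[q]? else (W g g n)[q]? := by
  have e : ∀ (p : ℕ → Prop) [DecidablePred p] (i : ℕ),
      ltr (fun i => if p i then g' i else g i) i = if p i then ltr g' i else ltr g i := by
    intro p _ i
    by_cases h : p i <;> simp [ltr, h]
  rw [W_get, W_get, W_get, e, e fun i => I (n + 1 + i)]
  by_cases h1 : q < n
  · simp only [if_pos h1]
    split_ifs <;> rfl
  by_cases h2 : q = n
  · simp only [if_neg h1, if_pos h2, ite_self]
  · simp only [if_neg h1, if_neg h2, show n + 1 + (q - (n + 1)) = q by omega]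
    split_ifs <;> rfl

theorem W_mem (g : ℕ → Bool) {n : ℕ} (hn : 0 < n) : W g g n ∈ aut.language := by
  have h0 := zero_not_mem_enc g n
  unfold W
  cases he : enc g n with
  | nil => exact absurd ((congrArg List.length he).symm.trans (enc_length g n)) hn.ne
  | cons c x => exact copy_mem (he ▸ h0)

theorem eq_of_W_mem {g h : ℕ → Bool} {n : ℕ} (hw : W g h n ∈ aut.language) {i : ℕ} (hi : i < n)
    (h2 : i % 2 = 1) : h i = g i := by
  have e := eq_of_mem (zero_not_mem_enc g n) (enc_chain h n) (by rw [enc_length, enc_length]) hw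
  have e2 := congrArg (fun l : List (Fin 4) => l[i]?) e
  simp only [enc_get, if_pos hi, ltr, Option.some.injEq, if_neg (by omega : ¬ i % 2 = 0)] at e2
  cases h1 : h i <;> cases h3 : g i <;> simp [h1, h3] at e2 ⊢

theorem mix_get {X : Type} {u v w u' v' w' : List X} (hu : u.length = u'.length)
    (hv : v.length = v'.length) (q : ℕ) : (u ++ v' ++ w)[q]? =
      if u.length ≤ q ∧ q < u.length + v.length then (u' ++ v' ++ w')[q]? else (u ++ v ++ w)[q]? := by
  simp only [List.getElem?_append, List.length_append, ← hu, ← hv]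
  split_ifs <;> first | rfl | omega

theorem residue {r ρ : ℕ} (h : ρ < r) (s : ℕ) :
    ∃ i, s ≤ i ∧ i < s + 2 * r ∧ i % 2 = 1 ∧ i / 2 % r = ρ := by
  have key : ∃ t, s ≤ 2 * (r * t + ρ) + 1 ∧ 2 * (r * t + ρ) + 1 < s + 2 * r := by
    induction s with
    | zero => exact ⟨0, by omega, by omega⟩
    | succ s ih =>
      obtain ⟨t, h1, h2⟩ := ih
      by_cases h3 : s + 1 ≤ 2 * (r * t + ρ) + 1
      · exact ⟨t, h3, by omega⟩
      · exact ⟨t + 1, by rw [mul_add r]; omega, by rw [mul_add r]; omega⟩
  obtain ⟨t, h1, h2⟩ := key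
  refine ⟨_, h1, h2, by omega, ?_⟩
  rw [show (2 * (r * t + ρ) + 1) / 2 = r * t + ρ by omega, Nat.mul_add_mod, Nat.mod_eq_of_lt h]

theorem exists_small (C : ℝ) (k : ℕ) : ∃ r : ℕ, 1 ≤ r ∧ C * (r : ℝ) ^ k < 2 ^ r := by
  have h := (tendsto_pow_const_div_const_pow_of_one_lt k (one_lt_two (α := ℝ))).const_mul C
  rw [mul_zero] at h
  obtain ⟨r, h1, h2⟩ := ((Filter.eventually_ge_atTop 1).and
    (h.eventually (gt_mem_nhds one_pos))).exists
  refine ⟨r, h1, ?_⟩
  rwa [← mul_div_assoc, div_lt_one (by positivity)] at h2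

variable {T : Type} {G : Grammar T}

theorem no_start (hG : G.Growing) {γ z : List (T ⊕ G.N)} (h : ReflTransGen (Rew G.rules) γ z) :
    Sum.inr G.S ∉ γ → ReflTransGen (Rew {r ∈ G.rules | r.1 ≠ [Sum.inr G.S]}) γ z := by
  induction h using ReflTransGen.head_induction_on with
  | refl => exact fun _ => .refl
  | head hs _ ih =>
    obtain ⟨x, y, α, β, hr, rfl, rfl⟩ := hs
    intro hn
    simp only [List.mem_append, not_or] at hn ih
    refine (ih ⟨⟨hn.1.1, (hG _ hr).1⟩, hn.2⟩).head ⟨x, y, α, β, ⟨hr, ?_⟩, rfl, rfl⟩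
    rintro (rfl : α = _)
    exact hn.1.2 List.mem_cons_self

theorem first_step (hG : G.Growing) {w : List T} (h : w ∈ G.language) :
    ∃ β, ([Sum.inr G.S], β) ∈ G.rules ∧
      ReflTransGen (Rew {r ∈ G.rules | r.1 ≠ [Sum.inr G.S]}) β (w.map Sum.inl) := by
  rcases ReflTransGen.cases_head h with h | ⟨γ, ⟨x, y, α, β, hr, h1, rfl⟩, h2⟩
  · cases w <;> simp at h
  · have h3 : 0 < α.length := List.length_pos_iff.2 (G.lhs _ hr)
    have h4 := congrArg List.length h1
    simp only [List.length_singleton, List.length_append] at h4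
    obtain rfl : x = [] := List.length_eq_zero_iff.1 (by omega)
    obtain rfl : y = [] := List.length_eq_zero_iff.1 (by omega)
    simp only [List.nil_append, List.append_nil] at h1 h2
    subst h1
    exact ⟨β, hr, no_start hG h2 (hG _ hr).1⟩

theorem mem_of_first {β : List (T ⊕ G.N)} {w : List T} (h : ([Sum.inr G.S], β) ∈ G.rules)
    (hd : ReflTransGen (Rew {r ∈ G.rules | r.1 ≠ [Sum.inr G.S]}) β (w.map Sum.inl)) :
    w ∈ G.language := by
  show ReflTransGen (Rew G.rules) [Sum.inr G.S] (w.map Sum.inl)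
  generalize w.map Sum.inl = z at hd
  induction hd with
  | refl => exact .single ⟨[], [], _, _, h, rfl, by simp⟩
  | tail _ hs ih =>
    obtain ⟨a, b, α, β, k, e⟩ := hs
    exact ih.tail ⟨a, b, α, β, k.1, e⟩

theorem not_growing (G : Grammar (Fin 4)) (hG : G.Growing) : G.language ≠ aut.language := by
  classical
  intro hL
  have := G.finN
  let _ := Fintype.ofFinite G.N
  obtain ⟨c0, hc0⟩ := (G.finRules.image fun r => r.2.length).bddAbove
  obtain ⟨c, hc1, hc⟩ : ∃ c, 1 ≤ c ∧ ∀ r ∈ G.rules, r.2.length ≤ c :=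
    ⟨c0 + 1, by omega, fun r hr => (hc0 ⟨r, hr, rfl⟩).trans (Nat.le_succ _)⟩
  set P := {r ∈ G.rules | r.1 ≠ [Sum.inr G.S]} with hPdef
  have hP : ∀ r ∈ P, r.1 ≠ [] ∧ r.1.length < r.2.length ∧ r.2.length ≤ c := fun r hr =>
    ⟨G.lhs r hr.1, (hG r hr.1).2 hr.2, hc r hr.1⟩
  let E : Finset (Ev (Fin 4 ⊕ G.N)) :=
    Finset.univ ×ˢ G.finRules.toFinset ×ˢ Finset.range (c + 1) ×ˢ Finset.range (c + 1)
  have hcR : (0 : ℝ) < c := Nat.cast_pos.2 hc1
  have hρ : (1 : ℝ) < 1 + 1 / (c : ℝ) := lt_add_of_pos_right _ (by positivity)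
  obtain ⟨K, hK⟩ := pow_unbounded_of_one_lt ((E.card : ℝ) + 1) hρ
  obtain ⟨r, hr, hlt⟩ := exists_small
    (Fintype.card (Option (Fin 4 ⊕ G.N)) * (10 * (c + 1) + 2) ^ (2 * K + 2)) (2 * K + 2)
  obtain ⟨n, hn⟩ : ∃ n, n = (c + 1) * (4 * r + 1) := ⟨_, rfl⟩
  have hn0 : 0 < n := by rw [hn]; positivity
  let g : (Fin r → Bool) → ℕ → Bool := fun x i => x ⟨i / 2 % r, Nat.mod_lt _ hr⟩
  have key : ∀ x, ∃ β, ([Sum.inr G.S], β) ∈ G.rules ∧
      Found P c (4 * r + 1) β ((W (g x) (g x) n).map Sum.inl) := fun x => by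
    obtain ⟨β, h1, h2⟩ := first_step hG (hL ▸ W_mem (g x) hn0)
    exact ⟨β, h1, found hP (by omega) h2 (hc _ h1) (by rw [List.length_map, W_length]; omega)⟩
  choose β hβ u v w M J h1 h2 h3 h4 h5 h6 h7 h8 using key
  simp only [List.length_map, W_length] at h5
  have hlen : ∀ x, (u x).length + (v x).length + (w x).length = 2 * n + 1 := fun x => by
    have := congrArg List.length (h1 x)
    simpa only [List.length_map, W_length, List.length_append] using this.symm
  obtain ⟨x0, hx0⟩ := Finite.exists_max fun x => (J x).length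
  have hcard := Finset.card_le_card_of_injOn (s := Finset.univ)
    (t := Finset.range (2 * n + 2) ×ˢ Finset.range (2 * n + 2) ×ˢ Finset.univ ×ˢ
      Fintype.piFinset fun _ : Fin (J x0).length => Finset.insertNone E)
    (fun x => ((u x).length, (v x).length, (M x).head?, fun i : Fin (J x0).length => (J x)[i.1]?))
    (fun x _ => by
      have := hlen x
      simp only [Finset.coe_product, Set.mem_prod, Finset.mem_coe, Finset.mem_range,
        Finset.mem_univ, Fintype.mem_piFinset, Finset.mem_insertNone, true_and]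
      refine ⟨by omega, by omega, fun i e he => ?_⟩
      obtain ⟨k1, k2, k3⟩ := h6 x e (List.mem_of_getElem? he)
      simp only [E, Finset.mem_product, Finset.mem_univ, Set.Finite.mem_toFinset, Finset.mem_range]
      exact ⟨trivial, k1.1, by omega, by omega⟩)
    (fun x _ x' _ he => by
      simp only [Prod.mk.injEq] at he
      obtain ⟨e1, e2, e3, e4⟩ := he
      have eM : M x = M x' := by
        have k1 := h4 x
        have k2 := h4 x'
        rcases hm : M x with _ | ⟨a, _ | _⟩ <;> rcases hm' : M x' with _ | ⟨a', _ | _⟩ <;>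
          simp_all
      have eJ : J x = J x' := List.ext_getElem? fun i => by
        by_cases hi : i < (J x0).length
        · exact congrFun e4 ⟨i, hi⟩
        · rw [List.getElem?_eq_none ((hx0 x).trans (not_lt.1 hi)),
            List.getElem?_eq_none ((hx0 x').trans (not_lt.1 hi))]
      have hd := h8 x (v x') (eM ▸ eJ ▸ h7 x')
      let I : ℕ → Prop := fun q => (u x).length ≤ q ∧ q < (u x).length + (v x).length
      have ew : u x ++ v x' ++ w x = (W (fun i => if I i then g x' i else g x i)
          (fun i => if I (n + 1 + i) then g x' i else g x i) n).map Sum.inl := by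
        refine List.ext_getElem? fun q => ?_
        rw [mix_get (w' := w x') e1 e2, ← h1, ← h1]
        simp only [List.getElem?_map]
        rw [W_mix, apply_ite (Option.map Sum.inl)]
      rw [ew] at hd
      have hmem := hL.subset (mem_of_first (hβ x) hd)
      funext ρ
      have k1 := h2 x
      have k2 := h3 x
      have k3 := hlen x
      rw [← hn] at k2
      obtain ⟨i, i1, i2, i3, i4⟩ : ∃ i, i < n ∧ i % 2 = 1 ∧ i / 2 % r = ρ ∧
          ((I i ∧ ¬ I (n + 1 + i)) ∨ (¬ I i ∧ I (n + 1 + i))) := by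
        by_cases hs : (u x).length + 2 * r ≤ n
        · obtain ⟨i, j1, j2, j3, j4⟩ := residue ρ.2 (u x).length
          exact ⟨i, by omega, j3, j4, Or.inl ⟨by simp only [I]; omega, by simp only [I]; omega⟩⟩
        · obtain ⟨i, j1, j2, j3, j4⟩ := residue ρ.2 ((u x).length - (n + 1))
          exact ⟨i, by omega, j3, j4, Or.inr ⟨by simp only [I]; omega, by simp only [I]; omega⟩⟩
      have k4 := eq_of_W_mem hmem i1 i2
      have k5 : ∀ y, g y i = y ρ := fun y => congrArg y (Fin.ext i3)
      rcases i4 with ⟨a, b⟩ | ⟨a, b⟩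
      · simpa only [if_pos a, if_neg b, k5] using k4
      · simpa only [if_neg a, if_pos b, k5] using k4.symm)
  simp only [Finset.card_univ, Fintype.card_fun, Fintype.card_bool, Fintype.card_fin,
    Finset.card_product, Finset.card_range, Fintype.card_piFinset, Finset.card_insertNone,
    Finset.prod_const] at hcard
  have hR : (2 : ℝ) ^ r ≤ (2 * n + 2) * ((2 * n + 2) *
      (Fintype.card (Option (Fin 4 ⊕ G.N)) * ((E.card : ℝ) + 1) ^ (J x0).length)) := by
    exact_mod_cast hcard
  have hB : (2 * n + 2 : ℝ) ≤ (10 * (c + 1) + 2) * r := by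
    have : 2 * n + 2 ≤ (10 * (c + 1) + 2) * r := by rw [hn]; nlinarith
    exact_mod_cast this
  have hE : ((E.card : ℝ) + 1) ^ (J x0).length ≤ ((10 * (c + 1) + 2) * r) ^ (2 * K) := by
    refine (pow_le_pow_left₀ (by positivity) hK.le _).trans ?_
    rw [← pow_mul, mul_comm K, pow_mul, pow_mul]
    refine pow_le_pow_left₀ (by positivity) ((h5 x0).trans ?_) _
    refine pow_le_pow_left₀ (by positivity) (le_trans ?_ hB) _
    push_cast
    linarith
  refine absurd (hR.trans ?_) (not_le.2 hlt)
  refine (mul_le_mul hB (mul_le_mul hB (mul_le_mul_of_nonneg_left hE (by positivity))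
    (by positivity) (by positivity)) (by positivity) (by positivity)).trans (le_of_eq ?_)
  rw [mul_pow]
  ring

end Pool.Agent.P.MP_2920fb_lc
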