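import Pool.Agent.P.MP_2920fb_lc.Cut

/-! The interchange lemma for growing productions. -/

namespace Pool.Agent.P.MP_2920fb_lc

open Relation

variable {X : Type} {P : Set (List X × List X)} {c m : ℕ}

/-- A factor of `z` of medium length that is joined to the rest by few productions. -/
def Found (P : Set (List X × List X)) (c m : ℕ) (γ z : List X) : Prop :=
  ∃ (u v w M : List X) (J : List (Ev X)), z = u ++ v ++ w ∧ m < v.length ∧
    v.length ≤ (c + 1) * m ∧ M.length ≤ 1 ∧
    (1 + 1 / (c : ℝ)) ^ J.length ≤ (z.length : ℝ) ^ 2 ∧ (∀ e ∈ J, Good P c e) ∧ Mid P J M v ∧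
    ∀ v', Mid P J M v' → ReflTransGen (Rew P) γ (u ++ v' ++ w)

/-- All cuts of `γ`, with gaps at most `g`. -/
def Inv (P : Set (List X × List X)) (c g : ℕ) (γ z : List X) : Prop :=
  ∃ μ d : ℕ → ℕ, ∑ p ∈ Finset.range γ.length, (1 + 1 / (c : ℝ)) ^ d (p + 1) ≤ z.length ∧
    d 0 = 0 ∧ d (γ.length + 1) = 0 ∧ μ 0 = 0 ∧ μ (γ.length + 1) = z.length ∧
    (∀ p, μ p ≤ z.length) ∧ (∀ p ≤ γ.length, μ (p + 1) ≤ μ p + g) ∧ Cut P c γ z μ d

theorem gap_sum {μ : ℕ → ℕ} {n g : ℕ} (h : ∀ p ≤ n, μ (p + 1) ≤ μ p + g) (p k : ℕ)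
    (hk : p + k ≤ n + 1) : μ (p + k) ≤ μ p + k * g := by
  induction k with
  | zero => simp
  | succ k ih =>
    have h1 := h (p + k) (by omega)
    have h2 := ih (by omega)
    rw [← add_assoc, Nat.succ_mul]
    omega

theorem inv_refl (hm : 1 ≤ m) (z : List X) : Inv P c m z z := by
  have h1 : ∀ p, z.take (min p z.length) = z.take p := fun p => by
    rcases le_total p z.length with h | h
    · rw [min_eq_left h]
    · rw [min_eq_right h, List.take_length, List.take_of_length_le h]
  have h2 : ∀ p, z.drop (min p z.length) = z.drop p := fun p => by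
    rcases le_total p z.length with h | h
    · rw [min_eq_left h]
    · rw [min_eq_right h, List.drop_length, List.drop_of_length_le h]
  refine ⟨fun p => min p z.length, fun _ => 0, by simp, rfl, rfl, by simp, by simp,
    fun p => min_le_right _ _, fun p _ => by simp only; omega, fun p q hpq hμ => ⟨[], le_rfl, by simp, ?_, ?_⟩⟩
  · simp only [h1, h2]
    exact .done _ _
  · simp only at hμ ⊢
    rw [h1, min_eq_left (by omega : p ≤ z.length)]
    exact .done _

theorem inv_step (hP : ∀ r ∈ P, r.1 ≠ [] ∧ r.1.length < r.2.length ∧ r.2.length ≤ c)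
    {γ γ' z : List X} (hs : Rew P γ γ') (h : Inv P c m γ' z) : Inv P c ((c + 1) * m) γ z := by
  obtain ⟨x, y, α, β, hr, rfl, rfl⟩ := hs
  obtain ⟨hα0, hαβ, hβ⟩ := hP _ hr
  simp only at hα0 hαβ hβ
  have hα1 : 0 < α.length := List.length_pos_iff.2 hα0
  obtain ⟨μ, d, h1, h2, h3, h4, h5, h6, h7, h8⟩ := h
  obtain ⟨j0, hj0, hmin⟩ := Finset.exists_min_image (Finset.range β.length)
    (fun i => d (x.length + i + 1)) ⟨0, by simp; omega⟩
  rw [Finset.mem_range] at hj0
  let f : ℕ → ℕ := fun p => if p ≤ x.length then p else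
    if p ≤ x.length + α.length then x.length + (j0 + 1) else p - α.length + β.length
  let d' : ℕ → ℕ := fun p => d (f p) + if x.length < p ∧ p ≤ x.length + α.length then 1 else 0
  have fL : ∀ p, p ≤ x.length → f p = p ∧ d' p = d p := fun p hp => by
    have e : f p = p := if_pos hp
    exact ⟨e, by simp only [d', e]; rw [if_neg (by omega), add_zero]⟩
  have fI : ∀ i, 0 < i → i ≤ α.length → f (x.length + i) = x.length + (j0 + 1) ∧
      d' (x.length + i) = d (x.length + (j0 + 1)) + 1 := fun i h0 hi => by
    have e : f (x.length + i) = x.length + (j0 + 1) := by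
      simp only [f]
      rw [if_neg (by omega), if_pos (by omega)]
    exact ⟨e, by simp only [d', e]; rw [if_pos (by omega)]⟩
  have fR : ∀ i, 0 < i → f (x.length + α.length + i) = x.length + β.length + i ∧
      d' (x.length + α.length + i) = d (x.length + β.length + i) := fun i h0 => by
    have e : f (x.length + α.length + i) = x.length + β.length + i := by
      simp only [f]
      rw [if_neg (by omega), if_neg (by omega)]
      omega
    exact ⟨e, by simp only [d', e]; rw [if_neg (by omega), add_zero]⟩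
  simp only [List.length_append] at h1 h3 h5 h7
  refine ⟨fun p => μ (f p), d', ?_, ?_, ?_, ?_, ?_, fun p => h6 _, fun p hp => ?_,
    cut_step hr (by omega) hβ (by omega) (by omega) fL fI fR h8⟩
  · simp only [List.length_append]
    rw [Finset.sum_range_add, Finset.sum_range_add] at h1 ⊢
    refine le_trans (add_le_add (add_le_add (le_of_eq ?_) ?_) (le_of_eq ?_)) h1
    · refine Finset.sum_congr rfl fun p hp => ?_
      rw [(fL (p + 1) (Finset.mem_range.1 hp)).2]
    · have hc : (0 : ℝ) < c := Nat.cast_pos.2 (by omega)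
      have hρ : (1 : ℝ) ≤ 1 + 1 / (c : ℝ) := le_add_of_nonneg_right (by positivity)
      have e1 : ∑ i ∈ Finset.range α.length, (1 + 1 / (c : ℝ)) ^ d' (x.length + i + 1) =
          α.length * (1 + 1 / (c : ℝ)) * (1 + 1 / (c : ℝ)) ^ d (x.length + j0 + 1) := by
        rw [Finset.sum_congr rfl fun i hi => by
          rw [add_assoc x.length, (fI (i + 1) (by omega) (Finset.mem_range.1 hi)).2],
          Finset.sum_const, Finset.card_range, nsmul_eq_mul, pow_succ, add_assoc x.length]
        ring
      have e2 := Finset.card_nsmul_le_sum (Finset.range β.length)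
        (fun i => (1 + 1 / (c : ℝ)) ^ d (x.length + i + 1)) _
        fun i hi => pow_le_pow_right₀ hρ (hmin i hi)
      rw [Finset.card_range, nsmul_eq_mul] at e2
      rw [e1]
      refine le_trans (mul_le_mul_of_nonneg_right ?_ (by positivity)) e2
      have e3 : (α.length : ℝ) + 1 ≤ β.length := by exact_mod_cast hαβ
      have e4 : (α.length : ℝ) * (1 / c) ≤ 1 := by
        rw [mul_one_div, div_le_one hc]
        exact_mod_cast (by omega : α.length ≤ c)
      linarith
    · refine Finset.sum_congr rfl fun p _ => ?_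
      rw [add_assoc (x.length + α.length), (fR (p + 1) (by omega)).2, add_assoc (x.length + β.length)]
  · rw [(fL 0 (by omega)).2, h2]
  · simp only [List.length_append]
    rw [add_assoc, (fR _ (by omega)).2, ← add_assoc, h3]
  · simp only
    rw [(fL 0 (by omega)).1, h4]
  · simp only [List.length_append]
    rw [add_assoc, (fR _ (by omega)).1, ← add_assoc, h5]
  · simp only [List.length_append] at hp
    have key : f p ≤ f (p + 1) ∧ f (p + 1) ≤ f p + (c + 1) ∧
        f (p + 1) ≤ x.length + β.length + y.length + 1 := by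
      simp only [f]
      split_ifs <;> omega
    obtain ⟨k, hk⟩ := Nat.exists_eq_add_of_le key.1
    have := gap_sum h7 (f p) k (by omega)
    have h9 : k * m ≤ (c + 1) * m := Nat.mul_le_mul_right m (by omega)
    simp only
    rw [hk]
    omega

theorem found_or_inv {γ z : List X} (hz : 1 ≤ z.length) (h : Inv P c ((c + 1) * m) γ z) :
    Found P c m γ z ∨ Inv P c m γ z := by
  obtain ⟨μ, d, h1, h2, h3, h4, h5, h6, h7, h8⟩ := h
  by_cases hg : ∀ p ≤ γ.length, μ (p + 1) ≤ μ p + m
  · exact Or.inr ⟨μ, d, h1, h2, h3, h4, h5, h6, hg, h8⟩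
  push Not at hg
  obtain ⟨p, hp, hg⟩ := hg
  obtain ⟨J, k1, k2, k3, k4⟩ := h8 p (p + 1) (by omega) (by omega)
  have hρ : (1 : ℝ) ≤ 1 + 1 / (c : ℝ) := le_add_of_nonneg_right (by positivity)
  have hd : ∀ q ≤ γ.length + 1, (1 + 1 / (c : ℝ)) ^ d q ≤ z.length := fun q hq => by
    have hz' : (1 : ℝ) ≤ z.length := by exact_mod_cast hz
    rcases q with _ | q
    · rwa [h2, pow_zero]
    by_cases hq' : q = γ.length
    · rwa [hq', h3, pow_zero]
    · exact (Finset.single_le_sum (f := fun p => (1 + 1 / (c : ℝ)) ^ d (p + 1))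
        (fun _ _ => by positivity) (Finset.mem_range.2 (by omega))).trans h1
  have split : ∀ (l : List X) (a b : ℕ), a ≤ b →
      l = l.take a ++ (l.take b).drop a ++ l.drop b := fun l a b hab => by
    conv_lhs => rw [← List.take_append_drop b l, ← List.take_append_drop a (l.take b),
      List.take_take, min_eq_left hab]
  have hl : ((z.take (μ (p + 1))).drop (μ p)).length = μ (p + 1) - μ p := by
    rw [List.length_drop, List.length_take, min_eq_left (h6 _)]
  have h9 := h7 p hp
  refine Or.inl ⟨_, _, _, _, J, split z (μ p) (μ (p + 1)) (by omega), by omega, by omega, ?_, ?_,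
    k2, k4, fun v' hv => ?_⟩
  · rw [List.length_drop, List.length_take]
    omega
  · refine (pow_le_pow_right₀ hρ k1).trans ?_
    rw [pow_add, sq]
    exact mul_le_mul (hd p (by omega)) (hd _ (by omega)) (by positivity) (by positivity)
  · have := glue k3 hv
    rwa [← split γ p (p + 1) (by omega)] at this

theorem found (hP : ∀ r ∈ P, r.1 ≠ [] ∧ r.1.length < r.2.length ∧ r.2.length ≤ c) (hm : 1 ≤ m)
    {γ z : List X} (h : ReflTransGen (Rew P) γ z) (hγ : γ.length ≤ c)
    (hz : (c + 1) * m < z.length) : Found P c m γ z := by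
  have key : Found P c m γ z ∨ Inv P c m γ z := by
    clear hγ
    induction h using ReflTransGen.head_induction_on with
    | refl => exact Or.inr (inv_refl hm z)
    | head hs _ ih =>
      rcases ih with ⟨u, v, w, M, J, h1, h2, h3, h4, h5, h6, h7, h8⟩ | ih
      · exact Or.inl ⟨u, v, w, M, J, h1, h2, h3, h4, h5, h6, h7, fun v' hv => (h8 v' hv).head hs⟩
      · exact found_or_inv (by omega) (inv_step hP hs ih)
  refine key.resolve_right ?_
  rintro ⟨μ, d, -, -, -, h4, h5, -, h7, -⟩
  have := gap_sum h7 0 (γ.length + 1) (by omega)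
  rw [zero_add, h4, h5] at this
  have h9 : (γ.length + 1) * m ≤ (c + 1) * m := Nat.mul_le_mul_right m (by omega)
  omega

end Pool.Agent.P.MP_2920fb_lc
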